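import Pool.Agent.Work.MP_3edda8_gt.SK.Main

/-!
# The degree filtration of skein invariants of knots does not stabilize

For every `N ≥ 1` there is a skein invariant of degree `N + 1` which is not of degree `N`, so the
filtration by the degree is strictly increasing at every step.
-/

namespace Pool.Agent.Results.MP_3edda8_gt.StrictFiltration

open Pool.Agent.Work.MP_3edda8_gt

theorem result :
    (∀ N : ℕ, 1 ≤ N → ∃ (X : Type) (I : Knot → X), HasDegree (N + 1) I ∧ ¬ HasDegree N I) ∧
    ¬ ∃ N : ℕ, 1 ≤ N ∧ ∀ n, N ≤ n → ∀ (X : Type) (I : Knot → X),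
      HasDegree n I ↔ HasDegree N I := by
  have h : ∀ N : ℕ, 1 ≤ N →
      ∃ (X : Type) (I : Knot → X), HasDegree (N + 1) I ∧ ¬ HasDegree N I :=
    fun N hN => ⟨_, _, main_degree hN⟩
  refine ⟨h, ?_⟩
  rintro ⟨N, hN, hst⟩
  obtain ⟨X, I, h1, h2⟩ := h N hN
  exact h2 ((hst (N + 1) (by omega) X I).1 h1)

end Pool.Agent.Results.MP_3edda8_gt.StrictFiltration
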